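import Pool.Agent.R357.MC.Two
import Pool.Agent.R357.MC.Defs2

set_option autoImplicit false

open Pool.Agent.R357.MC

namespace Pool.Agent.Results.MP_0dd62e_nt.EqualRadii

lemma three_le {S : Set (ℤ × ℤ)} (hS : S.Finite) {a b c : ℤ × ℤ} (hab : a ≠ b) (hac : a ≠ c) (hbc : b ≠ c)
    (ha : a ∈ S) (hb : b ∈ S) (hc : c ∈ S) : 3 ≤ S.ncard := by
  have h1 : ({a, b, c} : Set (ℤ × ℤ)) ⊆ S := by
    intro x hx
    simp only [Set.mem_insert_iff, Set.mem_singleton_iff] at hx
    rcases hx with rfl | rfl | rfl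
    · exact ha
    · exact hb
    · exact hc
  have h2 := Set.ncard_le_ncard h1 hS
  have h3 : ({a, b, c} : Set (ℤ × ℤ)).ncard = 3 := by
    rw [Set.ncard_eq_three]
    exact ⟨a, b, c, hab, hac, hbc, rfl⟩
  omega

lemma sq_rt : (√49997) ^ 2 = (49997 : ℝ) := Real.sq_sqrt (by norm_num)

lemma fin_on (c : ℝ × ℝ) : (onCircle c (√49997)).Finite := by
  apply (fin_cl c 49997).subset
  intro p hp
  have h : ((p.1 : ℝ) - c.1) ^ 2 + ((p.2 : ℝ) - c.2) ^ 2 = (√49997) ^ 2 := hp
  rw [sq_rt] at h
  exact (le_of_eq h : dsq c p ≤ 49997)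

/-- every circle that encloses at most `157049` lattice points has radius at most `√49997` -/
lemma bound {n : ℕ} (hn : n < 157050) (c : ℝ × ℝ) (r : ℝ) (hr : 0 < r) (h : enc c r = n) : r ≤ √49997 := by
  by_contra hc
  push Not at hc
  have h1 : (49997 : ℝ) < r ^ 2 := by
    rw [← sq_rt]
    exact pow_lt_pow_left₀ hc (Real.sqrt_nonneg _) (by norm_num)
  have h2 := cl_le_op (c := c) h1
  have h3 := all2 c
  rw [enc_eq] at h
  omega

lemma large_a : IsLargestLatticeCircle 157045 (0, 0) (√49997) := by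
  refine ⟨Real.sqrt_pos.2 (by norm_num), ?_, ?_, fun c r hr h _ => bound (by norm_num) c r hr h⟩
  · rw [enc_eq, sq_rt, ← Pa_rho, ← Pa_c0]
    exact opa
  · apply three_le (fin_on _) (a := (221, 34)) (b := (34, 221)) (c := (-221, 34)) (by decide) (by decide) (by decide)
    all_goals
      show _ = _
      rw [sq_rt]
      norm_num

lemma large_b : IsLargestLatticeCircle 157049 (2 / 5, 1 / 5) (√49997) := by
  refine ⟨Real.sqrt_pos.2 (by norm_num), ?_, ?_, fun c r hr h _ => bound (by norm_num) c r hr h⟩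
  · rw [enc_eq, sq_rt, ← Pb_rho, ← Pb_c0]
    exact opb
  · apply three_le (fin_on _) (a := (224, 0)) (b := (215, 63)) (c := (-156, 160)) (by decide) (by decide) (by decide)
    all_goals
      show _ = _
      rw [sq_rt]
      norm_num

/-- `ρ_157045 = ρ_157049 = √49997`: the largest lattice circles enclosing exactly `157045` and exactly `157049`
lattice points have the same radius (their centres are `(0, 0)` and `(2/5, 1/5)`). -/
theorem result : rhoN 157045 = √49997 ∧ rhoN 157049 = √49997 :=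
  ⟨rhoN_eq large_a, rhoN_eq large_b⟩

end Pool.Agent.Results.MP_0dd62e_nt.EqualRadii
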